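import Pool.Agent.Helper89.KN.Spec
import Pool.Agent.Helper89.KN.Base

/-! KN parts OIN and OLE. -/

open MeasureTheory Set Filter Topology
open scoped ENNReal

noncomputable section

namespace KN

theorem sq_meas (n : ℝ) : MeasurableSet (Sq n) := by
  have : Sq n = Complex.re ⁻¹' (Set.Icc 0 (Real.sqrt n)) ∩ Complex.im ⁻¹' (Set.Icc 0 (Real.sqrt n)) := by
    ext z
    simp only [Sq, SqL, Set.mem_setOf_eq, Set.mem_inter_iff, Set.mem_preimage, Set.mem_Icc]
    tauto
  rw [this]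
  exact (Complex.measurable_re measurableSet_Icc).inter (Complex.measurable_im measurableSet_Icc)

theorem sq_subset_ball (n : ℝ) : Sq n ⊆ Metric.closedBall (0 : ℂ) (Real.sqrt n + Real.sqrt n) := by
  intro z hz
  obtain ⟨h1, h2, h3, h4⟩ := hz
  rw [Metric.mem_closedBall, dist_zero_right]
  have := Complex.norm_le_abs_re_add_abs_im z
  rw [abs_of_nonneg h1, abs_of_nonneg h3] at this
  linarith

theorem sq_vol_ne_top (n : ℝ) : volume (Sq n) ≠ ⊤ := by
  apply ne_top_of_le_ne_top _ (measure_mono (sq_subset_ball n))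
  exact (measure_closedBall_lt_top).ne

theorem box_meas (xl xr yb yt : ℝ) : MeasurableSet (Box xl xr yb yt) := by
  have : Box xl xr yb yt = Complex.re ⁻¹' (Set.Icc xl xr) ∩ Complex.im ⁻¹' (Set.Icc yb yt) := by
    ext z
    simp only [Box, Set.mem_setOf_eq, Set.mem_inter_iff, Set.mem_preimage, Set.mem_Icc]
    tauto
  rw [this]
  exact (Complex.measurable_re measurableSet_Icc).inter (Complex.measurable_im measurableSet_Icc)

/-- abstract form -/
theorem cher_ratio (hC : S_CHER) (hB : S_BASIC) (S U V : Set ℂ) (c : ℝ) (k : ℕ)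
    (hS : MeasurableSet S) (hU : MeasurableSet U) (hV : MeasurableSet V) (hUS : U ⊆ S)
    (hUV : Disjoint U V) (hSt : volume S ≠ ⊤) (hc : 0 < c) (hu : 0 < (volume U).toReal)
    (hVt : volume V ≤ ENNReal.ofReal (c * (volume U).toReal)) :
    PP S (fun ω => cnt U ω = 0 ∧ k ≤ cnt V ω) ≤ ENNReal.ofReal ((c / (1 + c)) ^ k) := by
  have h1 : PP S (fun ω => cnt U ω = 0 ∧ k ≤ cnt V ω) ≤
      PP S (fun ω => cnt U ω = 0 ∧ k ≤ cnt (V ∩ S) ω) := by
    apply hB.1 S _ _ hS
    rintro m x hx ⟨h0, hk⟩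
    refine ⟨h0, hk.trans (cnt_mono' ?_)⟩
    intro z hz hzV
    rw [mem_conf] at hz
    obtain ⟨i, rfl⟩ := hz
    exact ⟨hzV, hx i⟩
  have hUt : volume U ≠ ⊤ := ne_top_of_le_ne_top hSt (measure_mono hUS)
  have h2 := hC S U (V ∩ S) (volume U).toReal (c * (volume U).toReal) k hS hU (hV.inter hS) hUS
    Set.inter_subset_right (hUV.mono_right Set.inter_subset_left) hSt hu.le (by positivity)
    (by rw [ENNReal.ofReal_toReal hUt]) ((measure_mono Set.inter_subset_left).trans hVt)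
  have h3 : c * (volume U).toReal / ((volume U).toReal + c * (volume U).toReal) = c / (1 + c) := by
    have : (volume U).toReal + c * (volume U).toReal = (1 + c) * (volume U).toReal := by ring
    rw [this]
    exact mul_div_mul_right _ _ hu.ne'
  rw [h3] at h2
  exact h1.trans h2

/-- area of the part of a larger disc -/
theorem vol_inter_ball_le (B : Set ℂ) (v : ℂ) (r R A : ℝ) (hr : 0 ≤ r) (hrR : r ≤ R)
    (hA : (volume (Metric.ball v r ∩ B)).toReal ≤ A) :
    volume (Metric.ball v R ∩ B) ≤ ENNReal.ofReal (A + Real.pi * (R ^ 2 - r ^ 2)) := by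
  have hsub : Metric.ball v R ∩ B ⊆ (Metric.ball v r ∩ B) ∪ (Metric.ball v R \ Metric.ball v r) := by
    rintro z ⟨h1, h2⟩
    by_cases h : z ∈ Metric.ball v r
    · exact Or.inl ⟨h, h2⟩
    · exact Or.inr ⟨h1, h⟩
  have hfin : volume (Metric.ball v r ∩ B) ≠ ⊤ :=
    ne_top_of_le_ne_top (measure_ball_lt_top (x := v) (r := r)).ne (measure_mono Set.inter_subset_left)
  have hvb : ∀ s : ℝ, 0 ≤ s → volume (Metric.ball v s) = ENNReal.ofReal (Real.pi * s ^ 2) := by
    intro s hs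
    rw [Complex.volume_ball, ← ENNReal.ofReal_pow hs, mul_comm Real.pi,
      ENNReal.ofReal_mul (by positivity)]
    congr 1
    rw [ENNReal.ofReal]
    congr 1
    ext
    rw [Real.coe_toNNReal _ Real.pi_pos.le]
    rfl
  have hd : volume (Metric.ball v R \ Metric.ball v r) = ENNReal.ofReal (Real.pi * (R ^ 2 - r ^ 2)) := by
    rw [measure_diff (Metric.ball_subset_ball hrR) measurableSet_ball.nullMeasurableSet
      (measure_ball_lt_top (x := v) (r := r)).ne, hvb R (hr.trans hrR), hvb r hr,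
      ← ENNReal.ofReal_sub _ (by positivity)]
    congr 1
    ring
  have hA0 : 0 ≤ A := le_trans ENNReal.toReal_nonneg hA
  have hRr : 0 ≤ Real.pi * (R ^ 2 - r ^ 2) := by
    apply mul_nonneg Real.pi_pos.le
    nlinarith
  calc volume (Metric.ball v R ∩ B)
      ≤ volume ((Metric.ball v r ∩ B) ∪ (Metric.ball v R \ Metric.ball v r)) := measure_mono hsub
    _ ≤ volume (Metric.ball v r ∩ B) + volume (Metric.ball v R \ Metric.ball v r) :=
        measure_union_le _ _
    _ ≤ ENNReal.ofReal A + ENNReal.ofReal (Real.pi * (R ^ 2 - r ^ 2)) := by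
        rw [hd]
        gcongr
        rw [← ENNReal.ofReal_toReal hfin]
        exact ENNReal.ofReal_le_ofReal hA
    _ = ENNReal.ofReal (A + Real.pi * (R ^ 2 - r ^ 2)) := (ENNReal.ofReal_add hA0 hRr).symm

theorem j_ineq (j : ℕ) (hj : 10000 ≤ j) (ε : ℝ) :
    Real.pi * (((j + 3) * ε) ^ 2 - ((j - 2) * ε) ^ 2) ≤ (1 / 900) * (Real.pi * ((j - 2) * ε) ^ 2) := by
  have hj' : (10000 : ℝ) ≤ j := by exact_mod_cast hj
  have h1 : ((j + 3) * ε) ^ 2 - ((j - 2) * ε) ^ 2 ≤ (1 / 900) * ((j - 2) * ε) ^ 2 := by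
    have : (5 * (2 * j + 1) : ℝ) ≤ (1 / 900) * (j - 2) ^ 2 := by nlinarith
    nlinarith [sq_nonneg ε, mul_le_mul_of_nonneg_right this (sq_nonneg ε)]
  calc Real.pi * (((j + 3) * ε) ^ 2 - ((j - 2) * ε) ^ 2)
      ≤ Real.pi * ((1 / 900) * ((j - 2) * ε) ^ 2) := mul_le_mul_of_nonneg_left h1 Real.pi_pos.le
    _ = _ := by ring

/-- OIN -/
theorem OIN_thm (hOG : S_OG) (hC : S_CHER) (hB : S_BASIC) : S_OIN := by
  intro k n ε j xl xr yb yt vl vr vt vb v₀ hn hε hj h1 h2 h3 h4 m1 m2 m3 m4 hv hsub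
  have hj' : (10000 : ℝ) ≤ j := by exact_mod_cast hj
  have hr : 0 < (j - 2) * ε := mul_pos (by linarith) hε
  obtain ⟨hog1, hog2⟩ := hOG xl xr yb yt ((j - 2) * ε) vl vr vt vb v₀ hr h1 h2 h3 h4 m1 m2 m3 m4 hv
  set U : Set ℂ := (Metric.ball vl ((j - 2) * ε) ∪ Metric.ball vr ((j - 2) * ε) ∪
      Metric.ball vt ((j - 2) * ε) ∪ Metric.ball vb ((j - 2) * ε)) \ Box xl xr yb yt with hU
  have hUm : MeasurableSet U :=
    (((measurableSet_ball.union measurableSet_ball).union measurableSet_ball).union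
      measurableSet_ball).diff (box_meas _ _ _ _)
  have hVm : MeasurableSet (Metric.ball v₀ ((j + 3) * ε) ∩ Box xl xr yb yt) :=
    measurableSet_ball.inter (box_meas _ _ _ _)
  have hdis : Disjoint U (Metric.ball v₀ ((j + 3) * ε) ∩ Box xl xr yb yt) := by
    rw [Set.disjoint_left]
    rintro z ⟨_, hz⟩ ⟨_, hz'⟩
    exact hz hz'
  have hu : 0 < (volume U).toReal := lt_of_lt_of_le (by positivity) hog2
  have hA : (volume (Metric.ball v₀ ((j - 2) * ε) ∩ Box xl xr yb yt)).toReal ≤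
      (2 / 7) * (volume U).toReal := by linarith
  have hV := vol_inter_ball_le (Box xl xr yb yt) v₀ ((j - 2) * ε) ((j + 3) * ε) _ hr.le
    (by nlinarith) hA
  have hji := j_ineq j hj ε
  have hV' : volume (Metric.ball v₀ ((j + 3) * ε) ∩ Box xl xr yb yt) ≤
      ENNReal.ofReal ((5 / 17) * (volume U).toReal) := by
    refine hV.trans (ENNReal.ofReal_le_ofReal ?_)
    nlinarith
  have := cher_ratio hC hB (Sq n) U _ (5 / 17) k (sq_meas n) hUm hVm hsub hdis (sq_vol_ne_top n)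
    (by norm_num) hu hV'
  norm_num at this ⊢
  exact this

/-- OLE -/
theorem OLE_thm (hOGS : S_OGS) (hC : S_CHER) (hB : S_BASIC) : S_OLE := by
  intro k n ε j yb yt vt vb v₀ hn hε hj h1 h2 h3 h4 h5 hv hsub
  have hj' : (10000 : ℝ) ≤ j := by exact_mod_cast hj
  have hr : 0 < (j - 2) * ε := mul_pos (by linarith) hε
  obtain ⟨hog1, hog2⟩ := hOGS yb yt ((j - 2) * ε) vt vb v₀ hr h1 h2 h3 h4 h5 hv
  set U : Set ℂ := ({z : ℂ | 0 ≤ z.re ∧ yt < z.im} ∩ Metric.ball vt ((j - 2) * ε) ∪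
        {z : ℂ | 0 ≤ z.re ∧ z.im < yb} ∩ Metric.ball vb ((j - 2) * ε)) with hU
  have hm1 : MeasurableSet {z : ℂ | 0 ≤ z.re ∧ yt < z.im} :=
    (measurableSet_le measurable_const Complex.measurable_re).inter
      (measurableSet_lt measurable_const Complex.measurable_im)
  have hm2 : MeasurableSet {z : ℂ | 0 ≤ z.re ∧ z.im < yb} :=
    (measurableSet_le measurable_const Complex.measurable_re).inter
      (measurableSet_lt Complex.measurable_im measurable_const)
  have hm3 : MeasurableSet {z : ℂ | 0 ≤ z.re ∧ yb ≤ z.im ∧ z.im ≤ yt} :=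
    (measurableSet_le measurable_const Complex.measurable_re).inter
      ((measurableSet_le measurable_const Complex.measurable_im).inter
        (measurableSet_le Complex.measurable_im measurable_const))
  have hUm : MeasurableSet U := (hm1.inter measurableSet_ball).union (hm2.inter measurableSet_ball)
  have hVm : MeasurableSet ({z : ℂ | 0 ≤ z.re ∧ yb ≤ z.im ∧ z.im ≤ yt} ∩
      Metric.ball v₀ ((j + 3) * ε)) := hm3.inter measurableSet_ball
  have hdis : Disjoint U ({z : ℂ | 0 ≤ z.re ∧ yb ≤ z.im ∧ z.im ≤ yt} ∩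
      Metric.ball v₀ ((j + 3) * ε)) := by
    rw [Set.disjoint_left]
    rintro z hz ⟨⟨_, h6, h7⟩, _⟩
    rcases hz with ⟨⟨_, h8⟩, _⟩ | ⟨⟨_, h8⟩, _⟩ <;> linarith
  have hu : 0 < (volume U).toReal := lt_of_lt_of_le (by positivity) hog2
  have hA : (volume (Metric.ball v₀ ((j - 2) * ε) ∩
      {z : ℂ | 0 ≤ z.re ∧ yb ≤ z.im ∧ z.im ≤ yt})).toReal ≤ (2 / 3) * (volume U).toReal := by
    rw [Set.inter_comm]
    linarith
  have hV := vol_inter_ball_le _ v₀ ((j - 2) * ε) ((j + 3) * ε) _ hr.le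
    (by nlinarith) hA
  have hji := j_ineq j hj ε
  have hV' : volume ({z : ℂ | 0 ≤ z.re ∧ yb ≤ z.im ∧ z.im ≤ yt} ∩ Metric.ball v₀ ((j + 3) * ε)) ≤
      ENNReal.ofReal ((5 / 7) * (volume U).toReal) := by
    rw [Set.inter_comm]
    refine hV.trans (ENNReal.ofReal_le_ofReal ?_)
    nlinarith
  have := cher_ratio hC hB (Sq n) U _ (5 / 7) k (sq_meas n) hUm hVm hsub hdis (sq_vol_ne_top n)
    (by norm_num) hu hV'
  norm_num at this ⊢
  exact this

end KN
end
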